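import Pool.Agent.Helper51.PF.Goals

set_option autoImplicit false

open Finset Pool.Agent.Helper51.PF

namespace Pool.Agent.Helper64.PF

theorem g_mv : G_MV := by
  intro p s hh1 hs
  have hk : kk p s = (hh p - 1) / s + 1 := rfl
  have hx : ∀ j, xx p s j = hh p - (kk p s - 1) * s + j * s := fun _ => rfl
  have hdm : s * ((hh p - 1) / s) + (hh p - 1) % s = hh p - 1 := Nat.div_add_mod _ _
  have hml : (hh p - 1) % s < s := Nat.mod_lt _ (by omega)
  obtain ⟨c, hc⟩ : ∃ c, c = (hh p - 1) % s + 1 := ⟨_, rfl⟩
  have hkk : kk p s - 1 = (hh p - 1) / s := by rw [hk, Nat.add_sub_cancel]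
  have hh2 : hh p = c + (kk p s - 1) * s := by
    rw [hkk, mul_comm]
    omega
  have hx' : ∀ j, xx p s j = c + j * s := by
    intro j
    rw [hx j]
    omega
  have hkpos : 1 ≤ kk p s := by omega
  have hmono : ∀ i j, i ≤ j → xx p s i ≤ xx p s j := by
    intro i j hij
    rw [hx', hx']
    have := Nat.mul_le_mul_right s hij
    omega
  have hinj : Function.Injective (xx p s) := by
    intro i j hij
    rw [hx', hx'] at hij
    have : i * s = j * s := by omega
    exact Nat.eq_of_mul_eq_mul_right (by omega) this
  have hmoved : moved p s = (range (kk p s)).image (xx p s) := by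
    ext x
    rw [moved, mem_filter, mem_Icc, mem_image]
    constructor
    · rintro ⟨⟨h1, h2⟩, h3⟩
      have h4 : s ∣ hh p - x := (Nat.modEq_iff_dvd' h2).1 h3
      obtain ⟨t, ht⟩ := h4
      have h5 : t ≤ kk p s - 1 := by
        rw [hkk]
        rw [Nat.le_div_iff_mul_le (by omega), mul_comm]
        omega
      refine ⟨kk p s - 1 - t, ?_, ?_⟩
      · rw [mem_range]
        omega
      · rw [hx', Nat.sub_mul]
        have h6 := Nat.mul_le_mul_right s h5
        rw [mul_comm s t] at ht
        omega
    · rintro ⟨j, hj, rfl⟩
      rw [mem_range] at hj
      have h1 : xx p s j ≤ hh p := by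
        have h2 := hmono j (kk p s - 1) (by omega)
        rw [hx' (kk p s - 1)] at h2
        omega
      refine ⟨⟨?_, h1⟩, ?_⟩
      · rw [hx']
        omega
      · rw [hx', Nat.add_mul_mod_self_right]
        conv_rhs => rw [hh2, Nat.add_mul_mod_self_right]
  refine ⟨hmoved, ?_, ?_, ?_, ?_, ?_, ?_⟩
  · rw [hmoved, card_image_of_injective _ hinj, card_range]
  · rw [hx']
    omega
  · rw [hx']
    omega
  · rw [hx']
    omega
  · intro j
    rw [hx', hx']
    ring
  · intro m r hr
    have hrr : rr p s m = ((range (kk p s)).filter (fun j => xx p s j ≤ m)).card := by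
      rw [rr, hmoved, filter_image, card_image_of_injective _ hinj]
    rw [hrr]
    constructor
    · intro h
      constructor
      · by_contra hcon
        push Not at hcon
        obtain ⟨h1, h2⟩ := hcon
        have h3 : (range (kk p s)).filter (fun j => xx p s j ≤ m) ⊆ range (r - 1) := by
          intro j hj
          rw [mem_filter] at hj
          rw [mem_range]
          by_contra h4
          have h5 := hmono (r - 1) j (by omega)
          omega
        have h4 := card_le_card h3
        rw [card_range] at h4
        omega
      · by_contra hcon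
        push Not at hcon
        obtain ⟨h1, h2⟩ := hcon
        have h3 : range (r + 1) ⊆ (range (kk p s)).filter (fun j => xx p s j ≤ m) := by
          intro j hj
          rw [mem_range] at hj
          rw [mem_filter, mem_range]
          have h5 := hmono j r (by omega)
          exact ⟨by omega, by omega⟩
        have h4 := card_le_card h3
        rw [card_range] at h4
        omega
    · rintro ⟨h1, h2⟩
      have h3 : (range (kk p s)).filter (fun j => xx p s j ≤ m) = range r := by
        ext j
        rw [mem_filter, mem_range, mem_range]
        constructor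
        · rintro ⟨h4, h5⟩
          by_contra h6
          have h7 := hmono r j (by omega)
          rcases h2 with h2 | h2 <;> omega
        · intro h4
          refine ⟨by omega, ?_⟩
          have h7 := hmono j (r - 1) (by omega)
          rcases h1 with h1 | h1 <;> omega
      rw [h3, card_range]

end Pool.Agent.Helper64.PF
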